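import Mathlib

/-!
OM stage 2, L6: a lower bound for a circle average.
-/

set_option autoImplicit false

namespace Pool.Agent.Helper16.OM

open Real MeasureTheory

theorem norm_mul_norm_circle {R : ℝ} (hR : 0 < R) {w : ℂ} (hw : ‖w‖ = R) :
    ‖w - Complex.I * R‖ * ‖w - -(Complex.I * R)‖ = 2 * R * |w.re| := by
  have h0 : w.re ^ 2 + w.im ^ 2 = R ^ 2 := by
    rw [← hw, Complex.sq_norm, Complex.normSq_apply]; ring
  have h1 : ‖w - Complex.I * R‖ ^ 2 = 2 * R ^ 2 - 2 * R * w.im := by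
    rw [Complex.sq_norm, Complex.normSq_apply]
    simp
    nlinarith
  have h2 : ‖w - -(Complex.I * R)‖ ^ 2 = 2 * R ^ 2 + 2 * R * w.im := by
    rw [Complex.sq_norm, Complex.normSq_apply]
    simp
    nlinarith
  have h3 : (‖w - Complex.I * R‖ * ‖w - -(Complex.I * R)‖) ^ 2 = (2 * R * |w.re|) ^ 2 := by
    rw [mul_pow, h1, h2, mul_pow, mul_pow, sq_abs]
    nlinarith
  exact (pow_left_inj₀ (by positivity) (by positivity) two_ne_zero).1 h3

theorem log_re_circle {R : ℝ} (hR : 0 < R) {w : ℂ} (hw : ‖w‖ = R) (hre : w.re ≠ 0) :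
    Real.log |w.re| = Real.log ‖w - Complex.I * R‖ + Real.log ‖w - -(Complex.I * R)‖
      - Real.log (2 * R) := by
  have h := norm_mul_norm_circle hR hw
  have hre' : 0 < |w.re| := abs_pos.2 hre
  have hpos : 0 < ‖w - Complex.I * R‖ * ‖w - -(Complex.I * R)‖ := by rw [h]; positivity
  have h1 : ‖w - Complex.I * R‖ ≠ 0 := fun h0 => by rw [h0, zero_mul] at hpos; exact lt_irrefl _ hpos
  have h2 : ‖w - -(Complex.I * R)‖ ≠ 0 := fun h0 => by
    rw [h0, mul_zero] at hpos; exact lt_irrefl _ hpos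
  rw [← Real.log_mul h1 h2, h, Real.log_mul (by positivity) hre'.ne']
  ring

theorem average_re_sq (R : ℝ) : circleAverage (fun w : ℂ => w.re ^ 2) 0 R = R ^ 2 / 2 := by
  rw [circleAverage_def]
  have h : ∀ θ : ℝ, (circleMap 0 R θ).re ^ 2 = R ^ 2 * Real.cos θ ^ 2 := by
    intro θ
    rw [circleMap_zero, Complex.re_ofReal_mul, Complex.exp_ofReal_mul_I_re]
    ring
  simp only [h]
  rw [intervalIntegral.integral_const_mul, integral_cos_sq]
  simp
  field_simp

theorem null_cos : ∀ᵐ θ : ℝ, Real.cos θ ≠ 0 := by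
  have hc : Set.Countable {θ : ℝ | Real.cos θ = 0} := by
    have : {θ : ℝ | Real.cos θ = 0} ⊆ Set.range (fun k : ℤ => (2 * k + 1) * π / 2) := by
      intro θ hθ
      obtain ⟨k, hk⟩ := Real.cos_eq_zero_iff.1 hθ
      exact ⟨k, hk.symm⟩
    exact (Set.countable_range _).mono this
  have h := hc.measure_zero (volume : Measure ℝ)
  rw [ae_iff]
  simpa using h

theorem circle_lower (R : ℝ) (hR : 1 ≤ R) (f : ℂ → ℝ) (hf : CircleIntegrable f 0 R) (A B : ℝ)
    (hB : 0 ≤ B) (h : ∀ w : ℂ, ‖w‖ = R → w.re ≠ 0 →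
      w.re ^ 2 / R * Real.log R - A * R - B * R * (Real.log R - Real.log |w.re|) ≤ f w) :
    R / 2 * Real.log R - A * R - B * R * Real.log 2 ≤ Real.circleAverage f 0 R := by
  have hR0 : 0 < R := by linarith
  set u₁ : ℂ → ℝ := fun w => Real.log ‖w - Complex.I * R‖ with hu₁
  set u₂ : ℂ → ℝ := fun w => Real.log ‖w - -(Complex.I * R)‖ with hu₂
  set c : ℝ := -A * R - B * R * Real.log R - B * R * Real.log (2 * R) with hc
  have i₁ : CircleIntegrable u₁ 0 R := circleIntegrable_log_norm_sub_const R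
  have i₂ : CircleIntegrable u₂ 0 R := circleIntegrable_log_norm_sub_const R
  have i₀ : CircleIntegrable (fun w : ℂ => w.re ^ 2) 0 R := by
    apply Continuous.intervalIntegrable
    fun_prop
  have hball : ∀ a : ℂ, ‖a‖ = R → a ∈ Metric.closedBall (0 : ℂ) |R| := by
    intro a ha
    rw [mem_closedBall_zero_iff, ha, abs_of_pos hR0]
  have n₁ : ‖Complex.I * (R : ℂ)‖ = R := by simp [abs_of_pos hR0]
  have a₁ : circleAverage u₁ 0 R = Real.log R :=
    circleAverage_log_norm_sub_const_of_mem_closedBall (hball _ n₁)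
  have a₂ : circleAverage u₂ 0 R = Real.log R :=
    circleAverage_log_norm_sub_const_of_mem_closedBall (hball _ (by rw [norm_neg, n₁]))
  rw [circleAverage_def] at a₁ a₂
  have a₀ := average_re_sq R
  rw [circleAverage_def] at a₀
  rw [circleAverage_def]
  simp only [smul_eq_mul] at a₀ a₁ a₂ ⊢
  set g : ℝ → ℝ := fun θ => Real.log R / R * (circleMap 0 R θ).re ^ 2 + c
    + (B * R * u₁ (circleMap 0 R θ) + B * R * u₂ (circleMap 0 R θ)) with hg
  have j₀ : IntervalIntegrable (fun θ => Real.log R / R * (circleMap 0 R θ).re ^ 2) volume 0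
      (2 * π) := i₀.const_mul _
  have j₁ : IntervalIntegrable (fun θ => B * R * u₁ (circleMap 0 R θ)) volume 0 (2 * π) :=
    i₁.const_mul _
  have j₂ : IntervalIntegrable (fun θ => B * R * u₂ (circleMap 0 R θ)) volume 0 (2 * π) :=
    i₂.const_mul _
  have jc : IntervalIntegrable (fun _ : ℝ => c) volume 0 (2 * π) := intervalIntegrable_const
  have jg : IntervalIntegrable g volume 0 (2 * π) := (j₀.add jc).add (j₁.add j₂)
  have hint : ∫ θ in 0..2 * π, g θ = Real.log R / R * (∫ θ in 0..2 * π, (circleMap 0 R θ).re ^ 2)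
      + 2 * π * c + (B * R * (∫ θ in 0..2 * π, u₁ (circleMap 0 R θ))
        + B * R * (∫ θ in 0..2 * π, u₂ (circleMap 0 R θ))) := by
    rw [hg, intervalIntegral.integral_add (j₀.add jc) (j₁.add j₂),
      intervalIntegral.integral_add j₀ jc, intervalIntegral.integral_add j₁ j₂,
      intervalIntegral.integral_const_mul, intervalIntegral.integral_const_mul,
      intervalIntegral.integral_const_mul, intervalIntegral.integral_const, smul_eq_mul, sub_zero]
  have hle : ∫ θ in 0..2 * π, g θ ≤ ∫ θ in 0..2 * π, f (circleMap 0 R θ) := by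
    apply intervalIntegral.integral_mono_ae Real.two_pi_pos.le jg hf
    filter_upwards [null_cos] with θ hθ
    have hw : ‖circleMap 0 R θ‖ = R := by
      rw [norm_circleMap_zero, abs_of_pos hR0]
    have hre : (circleMap 0 R θ).re ≠ 0 := by
      rw [circleMap_zero, Complex.re_ofReal_mul, Complex.exp_ofReal_mul_I_re]
      exact mul_ne_zero hR0.ne' hθ
    have h1 := h _ hw hre
    rw [log_re_circle hR0 hw hre] at h1
    refine le_trans (le_of_eq ?_) h1
    simp only [hg, hu₁, hu₂, hc]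
    field_simp
    ring
  have hfin : (2 * π)⁻¹ * ∫ θ in 0..2 * π, g θ = R / 2 * Real.log R - A * R - B * R * Real.log 2 := by
    rw [hint]
    have e : (2 * π)⁻¹ * (Real.log R / R * (∫ θ in 0..2 * π, (circleMap 0 R θ).re ^ 2)
      + 2 * π * c + (B * R * (∫ θ in 0..2 * π, u₁ (circleMap 0 R θ))
        + B * R * (∫ θ in 0..2 * π, u₂ (circleMap 0 R θ)))) =
      Real.log R / R * ((2 * π)⁻¹ * (∫ θ in 0..2 * π, (circleMap 0 R θ).re ^ 2)) + c
      + (B * R * ((2 * π)⁻¹ * (∫ θ in 0..2 * π, u₁ (circleMap 0 R θ)))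
        + B * R * ((2 * π)⁻¹ * (∫ θ in 0..2 * π, u₂ (circleMap 0 R θ)))) := by
      have : (2 * π) ≠ 0 := Real.two_pi_pos.ne'
      field_simp
    rw [e, a₀, a₁, a₂, hc, Real.log_mul two_ne_zero hR0.ne']
    field_simp
    ring
  rw [← hfin]
  exact mul_le_mul_of_nonneg_left hle (inv_nonneg.2 Real.two_pi_pos.le)

end Pool.Agent.Helper16.OM
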